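import Pool.Agent.Helper3_PPX.Stmts

/-! Squad PPX (MP_5b1cbc_ag), module NUM: arithmetic. -/

namespace Pool.Agent.PPX.H86

/-- the numerical contradiction, `d = d₁ + 1`, `q = N₁ / A` -/
theorem num_core (δ A M1 M2 M N1 N2 q d D S T : ℕ) (hA : A = 1000 * (δ + 1))
    (hM : M = A * (M1 + δ + 2)) (hM2 : M2 + M1 = M + 1) (hq : A * q ≤ N1) (hd : d + q = N1)
    (hN2 : A ≤ N2) (hN1 : 0 < N1) (hS : S ≤ N1 * N2)
    (hT : T + 2 * (δ + 1) * S ≤ 2 * (δ + 1) * (N1 * D + N1))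
    (h : d * M2 * D ≤ (M + 1) * S + (δ + 1) * (N1 * N2))
    (h5 : N1 * N2 ≤ 5 * T) : False := by
  have hA1 : 1000 ≤ A := by omega
  have hMb : 1000 * M1 ≤ M := by
    rw [hM]; nlinarith
  have hMc : 1000 * (δ + 1) ≤ M := by
    rw [hM]; nlinarith
  have h2d : N1 ≤ 2 * d := by nlinarith
  have h2M : M + 1 ≤ 2 * M2 := by omega
  -- step 1
  have hD : D ≤ 5 * N2 := by
    have e1 : N1 * (M + 1) ≤ 4 * (d * M2) := by
      calc N1 * (M + 1) ≤ (2 * d) * (2 * M2) := Nat.mul_le_mul h2d h2M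
        _ = 4 * (d * M2) := by ring
    have e2 : N1 * (M + 1) * D ≤ 4 * (d * M2 * D) := by
      calc N1 * (M + 1) * D ≤ 4 * (d * M2) * D := Nat.mul_le_mul_right _ e1
        _ = 4 * (d * M2 * D) := by ring
    have e3 : (M + 1) * S ≤ (M + 1) * (N1 * N2) := Nat.mul_le_mul_left _ hS
    have e4 : 4 * ((δ + 1) * (N1 * N2)) ≤ (M + 1) * (N1 * N2) := by
      calc 4 * ((δ + 1) * (N1 * N2)) = (4 * (δ + 1)) * (N1 * N2) := by ring
        _ ≤ (M + 1) * (N1 * N2) := Nat.mul_le_mul_right _ (by omega)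
    have e5 : N1 * (M + 1) * D ≤ N1 * (M + 1) * (5 * N2) := by
      calc N1 * (M + 1) * D ≤ 4 * (d * M2 * D) := e2
        _ ≤ 4 * ((M + 1) * (N1 * N2)) + (M + 1) * (N1 * N2) := by omega
        _ = N1 * (M + 1) * (5 * N2) := by ring
    exact Nat.le_of_mul_le_mul_left e5 (by positivity)
  -- step 2
  have hK : A * (N1 * D) ≤ A * S + 10 * (N1 * N2) := by
    have f1 : (M + 1) * (N1 * D) = d * M2 * D + M1 * d * D + (M + 1) * (q * D) := by
      rw [← hM2, ← hd]; ring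
    have f2 : M1 * d * D ≤ M1 * N1 * (5 * N2) :=
      Nat.mul_le_mul (Nat.mul_le_mul_left _ (by omega)) hD
    have f3 : A * (q * D) ≤ N1 * (5 * N2) := by
      calc A * (q * D) = (A * q) * D := by ring
        _ ≤ N1 * (5 * N2) := Nat.mul_le_mul hq hD
    have f4 : A * (δ + 1 + 5 * M1) ≤ 5 * M := by
      rw [hM]; nlinarith
    have f5 : A * ((δ + 1) * (N1 * N2) + M1 * N1 * (5 * N2)) ≤ 5 * M * (N1 * N2) := by
      calc A * ((δ + 1) * (N1 * N2) + M1 * N1 * (5 * N2))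
          = A * (δ + 1 + 5 * M1) * (N1 * N2) := by ring
        _ ≤ 5 * M * (N1 * N2) := Nat.mul_le_mul_right _ f4
    have f6 : (M + 1) * (A * (N1 * D)) ≤ (M + 1) * (A * S + 10 * (N1 * N2)) := by
      calc (M + 1) * (A * (N1 * D)) = A * ((M + 1) * (N1 * D)) := by ring
        _ = A * (d * M2 * D) + A * (M1 * d * D) + (M + 1) * (A * (q * D)) := by
            rw [f1]; ring
        _ ≤ A * ((M + 1) * S + (δ + 1) * (N1 * N2)) + A * (M1 * N1 * (5 * N2)) +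
            (M + 1) * (N1 * (5 * N2)) := by
            gcongr
        _ = A * (M + 1) * S + A * ((δ + 1) * (N1 * N2) + M1 * N1 * (5 * N2)) +
            (M + 1) * (N1 * (5 * N2)) := by ring
        _ ≤ A * (M + 1) * S + 5 * M * (N1 * N2) + (M + 1) * (N1 * (5 * N2)) := by
            gcongr
        _ ≤ A * (M + 1) * S + 5 * (M + 1) * (N1 * N2) + (M + 1) * (N1 * (5 * N2)) := by
            gcongr
            omega
        _ = (M + 1) * (A * S + 10 * (N1 * N2)) := by ring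
    exact Nat.le_of_mul_le_mul_left f6 (by positivity)
  -- step 3
  have g1 : A * (N1 * N2) + 10 * (δ + 1) * (A * S) ≤
      10 * (δ + 1) * (A * (N1 * D) + A * N1) := by
    calc A * (N1 * N2) + 10 * (δ + 1) * (A * S)
        ≤ A * (5 * T) + 10 * (δ + 1) * (A * S) := by gcongr
      _ = 5 * A * (T + 2 * (δ + 1) * S) := by ring
      _ ≤ 5 * A * (2 * (δ + 1) * (N1 * D + N1)) := by gcongr
      _ = 10 * (δ + 1) * (A * (N1 * D) + A * N1) := by ring
  have g2 : 10 * (δ + 1) * (A * (N1 * D) + A * N1) ≤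
      10 * (δ + 1) * (A * S + 10 * (N1 * N2) + A * N1) := by gcongr
  have g3 : A * (N1 * N2) ≤ 10 * (δ + 1) * (10 * (N1 * N2) + A * N1) := by
    have : 10 * (δ + 1) * (A * S + 10 * (N1 * N2) + A * N1) =
      10 * (δ + 1) * (10 * (N1 * N2) + A * N1) + 10 * (δ + 1) * (A * S) := by ring
    omega
  have g4 : (δ + 1) * N1 * (1000 * N2) ≤ (δ + 1) * N1 * (100 * N2 + 10 * A) := by
    calc (δ + 1) * N1 * (1000 * N2) = A * (N1 * N2) := by rw [hA]; ring
      _ ≤ 10 * (δ + 1) * (10 * (N1 * N2) + A * N1) := g3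
      _ = (δ + 1) * N1 * (100 * N2 + 10 * A) := by ring
  have g5 := Nat.le_of_mul_le_mul_left g4 (by positivity)
  omega

theorem num : NumStmt := by
  intro δ
  obtain ⟨A, hA⟩ : ∃ A, A = 1000 * (δ + 1) := ⟨_, rfl⟩
  obtain ⟨M1, hM1⟩ : ∃ M1, M1 = 4 * (200 * (16 * A) ^ 3) := ⟨_, rfl⟩
  have hA1 : 1000 ≤ A := by omega
  have hMM : M1 ≤ A * (M1 + δ + 2) := by nlinarith
  refine ⟨16 * A, A * (M1 + δ + 2), A * (M1 + δ + 2), 2 * A, 4 * (16 * A) * (2 * (16 * A) + 1),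
    by omega, by omega, by rw [← hM1]; exact hMM, le_rfl, ?_⟩
  intro N₁ N₂ h1 h2
  have hN1 : 4 * A ≤ N₁ := le_trans (by nlinarith) h1
  have hN2 : 4 * A ≤ N₂ := le_trans (by nlinarith) h2
  obtain ⟨q, hq⟩ : ∃ q, q = N₁ / A := ⟨_, rfl⟩
  obtain ⟨e, he⟩ : ∃ e, e = N₂ / (8 * A) := ⟨_, rfl⟩
  have hq1 : A * q ≤ N₁ := by rw [hq]; exact Nat.mul_div_le _ _
  have hq2 : N₁ < A * (q + 1) := by rw [hq]; exact Nat.lt_mul_div_succ _ (by omega)
  have he1 : 8 * A * e ≤ N₂ := by rw [he]; exact Nat.mul_div_le _ _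
  have he2 : N₂ < 8 * A * (e + 1) := by rw [he]; exact Nat.lt_mul_div_succ _ (by omega)
  have hqN : q + 1 ≤ N₁ := by nlinarith
  obtain ⟨d, hd⟩ : ∃ d, d + q + 1 = N₁ := ⟨N₁ - (q + 1), by omega⟩
  have h2d : N₁ ≤ 2 * (d + 1) := by nlinarith
  refine ⟨d, e, ⟨?_, le_rfl⟩, ?_, ?_, h2, ?_⟩
  · -- Adm
    have a1 : A * d + N₁ ≤ A * N₁ := by nlinarith
    have a2 : A * d * N₂ + N₁ * N₂ ≤ A * N₁ * N₂ := by
      calc A * d * N₂ + N₁ * N₂ = (A * d + N₁) * N₂ := by ring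
        _ ≤ A * N₁ * N₂ := Nat.mul_le_mul_right _ a1
    have a3 : 4 * (A * (2 * e) * N₁) ≤ N₂ * N₁ := by
      calc 4 * (A * (2 * e) * N₁) = (8 * A * e) * N₁ := by ring
        _ ≤ N₂ * N₁ := Nat.mul_le_mul_right _ he1
    obtain ⟨B, hB⟩ : ∃ B, B + 1 = 2 * A := ⟨2 * A - 1, by omega⟩
    have hB' : 2 * A - 1 = B := by omega
    rw [hB']
    have a4 : B * (N₁ * N₂) + N₁ * N₂ = 2 * (A * N₁ * N₂) := by
      calc B * (N₁ * N₂) + N₁ * N₂ = (B + 1) * (N₁ * N₂) := by ring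
        _ = 2 * (A * N₁ * N₂) := by rw [hB]; ring
    have a5 : 2 * A * (d * N₂ + 2 * e * N₁) = 2 * (A * d * N₂) + 2 * (A * (2 * e) * N₁) := by
      ring
    have a6 : N₂ * N₁ = N₁ * N₂ := by ring
    rw [a5]
    omega
  · calc N₁ * N₂ ≤ (2 * (d + 1)) * (8 * A * (e + 1)) := Nat.mul_le_mul h2d he2.le
      _ = 16 * A * ((d + 1) * (e + 1)) := by ring
  · calc N₁ ≤ 2 * (d + 1) := h2d
      _ ≤ 16 * A * (d + 1) := Nat.mul_le_mul_right _ (by omega)
  · intro D S T hSD hSN hT hmain h5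
    rw [← hM1] at hmain
    have hSsum : ∑ i, S i ≤ N₁ * N₂ := by
      calc ∑ i, S i ≤ ∑ _i : Fin N₁, N₂ := Finset.sum_le_sum fun i _ => hSN i
        _ = N₁ * N₂ := by simp
    have hTsum : (∑ i, T i) + 2 * (δ + 1) * (∑ i, S i) ≤ 2 * (δ + 1) * (N₁ * D + N₁) := by
      rw [Finset.mul_sum, ← Finset.sum_add_distrib]
      calc ∑ i, (T i + 2 * (δ + 1) * S i) ≤ ∑ _i : Fin N₁, 2 * (δ + 1) * (D + 1) := by
            refine Finset.sum_le_sum fun i _ => ?_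
            have t1 := hT i
            have t2 : D - S i + 1 + S i = D + 1 := by have := hSD i; omega
            calc T i + 2 * (δ + 1) * S i ≤ 2 * ((δ + 1) * (D - S i + 1)) + 2 * (δ + 1) * S i :=
                  Nat.add_le_add_right t1 _
              _ = 2 * (δ + 1) * (D - S i + 1 + S i) := by ring
              _ = 2 * (δ + 1) * (D + 1) := by rw [t2]
        _ = 2 * (δ + 1) * (N₁ * D + N₁) := by simp; ring
    refine num_core δ A M1 (A * (M1 + δ + 2) - M1 + 1) (A * (M1 + δ + 2)) N₁ N₂ q (d + 1) D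
      (∑ i, S i) (∑ i, T i) hA rfl (by omega) hq1 (by omega) (by omega) (by omega) hSsum hTsum
      hmain h5

end Pool.Agent.PPX.H86
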